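import Pool.Agent.V1125.Sph.Key
import Mathlib.Analysis.InnerProductSpace.PiL2
import Mathlib.Data.Set.Card

/-!
# Five unit spheres
-/

set_option autoImplicit false

namespace Pool.Agent.V1125.Sph

/-- Squared distance. -/
def d2 (a b : Fin 3 → ℝ) : ℝ := (a 0 - b 0) ^ 2 + (a 1 - b 1) ^ 2 + (a 2 - b 2) ^ 2

theorem five (c p : Fin 5 → (Fin 3 → ℝ)) (hinj : Function.Injective c)
    (h : ∀ i j, i ≠ j → d2 (p i) (c j) = 1) : ∃ i, d2 (p i) (c i) = 1 := by
  by_contra hno
  push Not at hno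
  obtain ⟨o, ho⟩ : ∃ o, o = p 4 := ⟨_, rfl⟩
  let u : Fin 5 → (Fin 3 → ℝ) := fun j k => c j k - o k
  let r : Fin 5 → (Fin 3 → ℝ) := fun j k => p j k - o k
  have hu : ∀ j, j ≠ 4 → dt (u j) (u j) = 1 := by
    intro j hj
    have := h 4 j (Ne.symm hj)
    rw [← ho] at this
    unfold d2 at this
    show (c j 0 - o 0) * (c j 0 - o 0) + (c j 1 - o 1) * (c j 1 - o 1) +
      (c j 2 - o 2) * (c j 2 - o 2) = 1
    linarith
  have hd : ∀ i j, i ≠ 4 → j ≠ 4 → i ≠ j → dt (u i) (u j) < 1 := by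
    intro i j hi hj hij
    have h1 := hu i hi
    have h2 := hu j hj
    have h3 : 0 < d2 (c i) (c j) := by
      by_contra hc
      push Not at hc
      unfold d2 at hc
      have a0 : c i 0 - c j 0 = 0 := by
        nlinarith [sq_nonneg (c i 0 - c j 0), sq_nonneg (c i 1 - c j 1), sq_nonneg (c i 2 - c j 2)]
      have a1 : c i 1 - c j 1 = 0 := by
        nlinarith [sq_nonneg (c i 0 - c j 0), sq_nonneg (c i 1 - c j 1), sq_nonneg (c i 2 - c j 2)]
      have a2 : c i 2 - c j 2 = 0 := by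
        nlinarith [sq_nonneg (c i 0 - c j 0), sq_nonneg (c i 1 - c j 1), sq_nonneg (c i 2 - c j 2)]
      apply hij
      apply hinj
      funext k
      fin_cases k
      · exact sub_eq_zero.1 a0
      · exact sub_eq_zero.1 a1
      · exact sub_eq_zero.1 a2
    have h4 : d2 (c i) (c j) = dt (u i) (u i) + dt (u j) (u j) - 2 * dt (u i) (u j) := by
      show (c i 0 - c j 0) ^ 2 + (c i 1 - c j 1) ^ 2 + (c i 2 - c j 2) ^ 2 =
        ((c i 0 - o 0) * (c i 0 - o 0) + (c i 1 - o 1) * (c i 1 - o 1) +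
          (c i 2 - o 2) * (c i 2 - o 2)) +
        ((c j 0 - o 0) * (c j 0 - o 0) + (c j 1 - o 1) * (c j 1 - o 1) +
          (c j 2 - o 2) * (c j 2 - o 2)) -
        2 * ((c i 0 - o 0) * (c j 0 - o 0) + (c i 1 - o 1) * (c j 1 - o 1) +
          (c i 2 - o 2) * (c j 2 - o 2))
      ring
    rw [h4, h1, h2] at h3
    linarith
  have hexp : ∀ i j, d2 (p i) (c j) = dt (r i) (r i) - 2 * dt (r i) (u j) + dt (u j) (u j) := by
    intro i j
    show (p i 0 - c j 0) ^ 2 + (p i 1 - c j 1) ^ 2 + (p i 2 - c j 2) ^ 2 =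
        ((p i 0 - o 0) * (p i 0 - o 0) + (p i 1 - o 1) * (p i 1 - o 1) +
          (p i 2 - o 2) * (p i 2 - o 2)) -
        2 * ((p i 0 - o 0) * (c j 0 - o 0) + (p i 1 - o 1) * (c j 1 - o 1) +
          (p i 2 - o 2) * (c j 2 - o 2)) +
        ((c j 0 - o 0) * (c j 0 - o 0) + (c j 1 - o 1) * (c j 1 - o 1) +
          (c j 2 - o 2) * (c j 2 - o 2))
    ring
  have hr : ∀ i j, j ≠ 4 → i ≠ j → 2 * dt (r i) (u j) = dt (r i) (r i) := by
    intro i j hj hij
    have h1 := h i j hij
    rw [hexp, hu j hj] at h1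
    linarith
  have hr0 : ∀ i, i ≠ 4 → dt (r i) (r i) ≠ 0 := by
    intro i hi h0
    have e : dt (r i) (r i) = (p i 0 - o 0) * (p i 0 - o 0) + (p i 1 - o 1) * (p i 1 - o 1) +
          (p i 2 - o 2) * (p i 2 - o 2) := rfl
    rw [e] at h0
    have a0 : p i 0 - o 0 = 0 := by
      nlinarith [sq_nonneg (p i 0 - o 0), sq_nonneg (p i 1 - o 1), sq_nonneg (p i 2 - o 2)]
    have a1 : p i 1 - o 1 = 0 := by
      nlinarith [sq_nonneg (p i 0 - o 0), sq_nonneg (p i 1 - o 1), sq_nonneg (p i 2 - o 2)]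
    have a2 : p i 2 - o 2 = 0 := by
      nlinarith [sq_nonneg (p i 0 - o 0), sq_nonneg (p i 1 - o 1), sq_nonneg (p i 2 - o 2)]
    have e2 : p i = p 4 := by
      rw [← ho]
      funext k
      fin_cases k
      · exact sub_eq_zero.1 a0
      · exact sub_eq_zero.1 a1
      · exact sub_eq_zero.1 a2
    have h5 := h i 4 hi
    rw [e2] at h5
    exact hno 4 h5
  let N : Fin 5 → (Fin 3 → ℝ) := fun i k => 2 / dt (r i) (r i) * r i k
  have hN : ∀ i x, dt (N i) x = 2 / dt (r i) (r i) * dt (r i) x := by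
    intro i x
    show 2 / dt (r i) (r i) * r i 0 * x 0 + 2 / dt (r i) (r i) * r i 1 * x 1 +
      2 / dt (r i) (r i) * r i 2 * x 2 = 2 / dt (r i) (r i) * (r i 0 * x 0 + r i 1 * x 1 + r i 2 * x 2)
    ring
  have hNN : ∀ i, i ≠ 4 → dt (N i) (N i) = 4 / dt (r i) (r i) := by
    intro i hi
    have h1 : dt (r i) (N i) = dt (N i) (r i) := by unfold dt; ring
    rw [hN, h1, hN]
    have := hr0 i hi
    field_simp
    norm_num
  have hNu : ∀ i j, i ≠ 4 → j ≠ 4 → i ≠ j → dt (N i) (u j) = 1 := by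
    intro i j hi hj hij
    have h1 := hr i j hj hij
    have h2 := hr0 i hi
    rw [hN]
    have h3 : dt (r i) (u j) = dt (r i) (r i) / 2 := by linarith
    rw [h3]
    field_simp
  obtain ⟨κ, hκ⟩ : ∃ κ, κ = (dt (u 4) (u 4) - 1) / 4 := ⟨_, rfl⟩
  have hq : ∀ i, i ≠ 4 → 1 - dt (N i) (u 4) + κ * dt (N i) (N i) = 0 := by
    intro i hi
    have h1 := h i 4 hi
    rw [hexp] at h1
    have h2 := hr0 i hi
    rw [hNN i hi, hN, hκ]
    have h3 : dt (r i) (u 4) = (dt (r i) (r i) + dt (u 4) (u 4) - 1) / 2 := by linarith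
    rw [h3]
    field_simp
    ring
  have hN0 : dt (N 0) (u 0) ≠ 1 := by
    intro h1
    rw [hN] at h1
    have h2 := hr0 0 (by decide)
    have h3 : 2 * dt (r 0) (u 0) = dt (r 0) (r 0) := by
      field_simp at h1
      linarith
    have h4 := hexp 0 0
    rw [hu 0 (by decide)] at h4
    apply hno 0
    rw [h4]
    linarith
  exact key (u 0) (u 1) (u 2) (u 3) (N 0) (N 1) (N 2) (N 3) (u 4) κ
    (hu 0 (by decide)) (hu 1 (by decide)) (hu 2 (by decide)) (hu 3 (by decide))
    (hd 0 1 (by decide) (by decide) (by decide)) (hd 0 2 (by decide) (by decide) (by decide))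
    (hd 0 3 (by decide) (by decide) (by decide)) (hd 1 2 (by decide) (by decide) (by decide))
    (hd 1 3 (by decide) (by decide) (by decide)) (hd 2 3 (by decide) (by decide) (by decide))
    (hNu 0 1 (by decide) (by decide) (by decide)) (hNu 0 2 (by decide) (by decide) (by decide))
    (hNu 0 3 (by decide) (by decide) (by decide)) (hNu 1 0 (by decide) (by decide) (by decide))
    (hNu 1 2 (by decide) (by decide) (by decide)) (hNu 1 3 (by decide) (by decide) (by decide))
    (hNu 2 0 (by decide) (by decide) (by decide)) (hNu 2 1 (by decide) (by decide) (by decide))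
    (hNu 2 3 (by decide) (by decide) (by decide)) (hNu 3 0 (by decide) (by decide) (by decide))
    (hNu 3 1 (by decide) (by decide) (by decide)) (hNu 3 2 (by decide) (by decide) (by decide))
    hN0 (hq 0 (by decide)) (hq 1 (by decide)) (hq 2 (by decide)) (hq 3 (by decide))
    (by rw [hκ]; ring)

/-- If `w` is orthogonal to `A, B` and `X` lies in their span, then `w` is orthogonal to `X`. -/
theorem span2 (A B X w : Fin 3 → ℝ) (hA : dt w A = 0) (hB : dt w B = 0) (hX : dd A B X = 0)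
    (hn : 0 < dt A A * dt B B - dt A B ^ 2) : dt w X = 0 := by
  have key : (dt A A * dt B B - dt A B ^ 2) * dt w X =
      (dt w A) * (dt B B * dt A X - dt A B * dt B X) + (dt w B) * (dt A A * dt B X - dt A B * dt A X)
      + dd A B w * dd A B X := by
    unfold dt dd
    ring
  rw [hA, hB, hX] at key
  have : (dt A A * dt B B - dt A B ^ 2) * dt w X = 0 := by rw [key]; ring
  rcases mul_eq_zero.1 this with h | h
  · exact absurd h hn.ne'
  · exact h

theorem span3 (A B C X w : Fin 3 → ℝ) (hA : dt w A = 0) (hB : dt w B = 0) (hC : dt w C = 0)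
    (hD : dd A B C ≠ 0) : dt w X = 0 := by
  have key : dd A B C * dt w X = dd X B C * dt w A + dd A X C * dt w B + dd A B X * dt w C := by
    unfold dt dd
    ring
  rw [hA, hB, hC] at key
  have : dd A B C * dt w X = 0 := by rw [key]; ring
  rcases mul_eq_zero.1 this with h | h
  · exact absurd h hD
  · exact h

/-- Three different points of a unit sphere are not collinear. -/
theorem noncol (A B P : Fin 3 → ℝ) (hA : 0 < dt A A) (hB : 0 < dt B B)
    (hAB : 0 < dt A A + dt B B - 2 * dt A B)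
    (hPA : 2 * dt P A = dt A A) (hPB : 2 * dt P B = dt B B) :
    0 < dt A A * dt B B - dt A B ^ 2 := by
  have h0 : 0 ≤ dt A A * dt B B - dt A B ^ 2 := by
    have : dt A A * dt B B - dt A B ^ 2 = (A 0 * B 1 - A 1 * B 0) ^ 2 +
        (A 0 * B 2 - A 2 * B 0) ^ 2 + (A 1 * B 2 - A 2 * B 1) ^ 2 := by
      unfold dt
      ring
    rw [this]
    positivity
  rcases lt_or_eq_of_le h0 with h | h
  · exact h
  · exfalso
    -- the vector |A|² B - (A·B) A vanishes
    have h1 : dt (fun k => dt A A * B k - dt A B * A k) (fun k => dt A A * B k - dt A B * A k) =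
        dt A A * (dt A A * dt B B - dt A B ^ 2) := by
      unfold dt
      ring
    rw [← h, mul_zero] at h1
    have e : ∀ v : Fin 3 → ℝ, dt v v = v 0 ^ 2 + v 1 ^ 2 + v 2 ^ 2 := by
      intro v; unfold dt; ring
    rw [e] at h1
    have z : ∀ v : Fin 3 → ℝ, v 0 ^ 2 + v 1 ^ 2 + v 2 ^ 2 = 0 → dt P v = 0 := by
      intro v hv
      have a0 : v 0 = 0 := by nlinarith [sq_nonneg (v 0), sq_nonneg (v 1), sq_nonneg (v 2)]
      have a1 : v 1 = 0 := by nlinarith [sq_nonneg (v 0), sq_nonneg (v 1), sq_nonneg (v 2)]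
      have a2 : v 2 = 0 := by nlinarith [sq_nonneg (v 0), sq_nonneg (v 1), sq_nonneg (v 2)]
      unfold dt
      rw [a0, a1, a2]
      ring
    have h2 := z (fun k => dt A A * B k - dt A B * A k) h1
    have h3 : dt P (fun k => dt A A * B k - dt A B * A k) =
        dt A A * dt P B - dt A B * dt P A := by
      have : ∀ s t : ℝ, dt P (fun k => s * B k - t * A k) = s * dt P B - t * dt P A := by
        intro s t
        unfold dt
        ring
      exact this _ _
    rw [h3] at h2
    have h4 : dt A A * (dt B B - dt A B) = 0 := by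
      have : dt A A * (2 * dt P B) - dt A B * (2 * dt P A) = 0 := by linarith
      rw [hPA, hPB] at this
      linarith
    have h5 : dt B B = dt A B := by
      rcases mul_eq_zero.1 h4 with h5 | h5
      · exact absurd h5 hA.ne'
      · linarith
    rw [← h5] at h hAB
    have h6 : dt B B * (dt A A - dt B B) = 0 := by linarith
    rcases mul_eq_zero.1 h6 with h7 | h7
    · exact absurd h7 hB.ne'
    · linarith

end Pool.Agent.V1125.Sph
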