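import Mathlib.Tactic
import Mathlib.Analysis.SpecialFunctions.Pow.Real

/-!
# Algebraic part for the unit spheres problem
-/

set_option autoImplicit false

namespace Pool.Agent.V1125.Sph

/-- All weights positive. -/
theorem case0 (a a' b b' c c' H : ℝ) (ha : 0 < a) (ha' : 0 < a') (hb : 0 < b) (hb' : 0 < b')
    (hc : 0 < c) (hc' : 0 < c') (hs : a + a' + b + b' + c + c' = 1)
    (hH : H = 2 * (a * a') * (b * b') + 2 * (b * b') * (c * c') + 2 * (c * c') * (a * a') -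
      (a * a') ^ 2 - (b * b') ^ 2 - (c * c') ^ 2) (hHp : 0 < H) :
    0 < 16 * (a * a') * (b * b') * (c * c') - 4 * H * ((a * a') * (b + b') * (c + c') +
      (b * b') * (a + a') * (c + c') + (c * c') * (a + a') * (b + b')) - 3 * H ^ 2 := by
  obtain ⟨A, hA⟩ : ∃ A, A = a + a' := ⟨_, rfl⟩
  obtain ⟨B, hB⟩ : ∃ B, B = b + b' := ⟨_, rfl⟩
  obtain ⟨C, hC⟩ : ∃ C, C = c + c' := ⟨_, rfl⟩
  obtain ⟨x, hx⟩ : ∃ x, x = a * a' := ⟨_, rfl⟩
  obtain ⟨y, hy⟩ : ∃ y, y = b * b' := ⟨_, rfl⟩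
  obtain ⟨w, hw⟩ : ∃ w, w = c * c' := ⟨_, rfl⟩
  have hxp : 0 < x := by rw [hx]; positivity
  have hyp : 0 < y := by rw [hy]; positivity
  have hwp : 0 < w := by rw [hw]; positivity
  have hAp : 0 < A := by rw [hA]; positivity
  have hBp : 0 < B := by rw [hB]; positivity
  have hCp : 0 < C := by rw [hC]; positivity
  have hAx : 4 * x ≤ A ^ 2 := by rw [hA, hx]; nlinarith [sq_nonneg (a - a')]
  have hBy : 4 * y ≤ B ^ 2 := by rw [hB, hy]; nlinarith [sq_nonneg (b - b')]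
  have hCw : 4 * w ≤ C ^ 2 := by rw [hC, hw]; nlinarith [sq_nonneg (c - c')]
  have hs' : A + B + C = 1 := by rw [hA, hB, hC]; linarith
  rw [← hx, ← hy, ← hw] at hH
  rw [← hx, ← hy, ← hw, ← hA, ← hB, ← hC]
  have h1 : H ≤ 4 * y * w := by rw [hH]; nlinarith [sq_nonneg (y + w - x)]
  have h2 : H ≤ 4 * x * w := by rw [hH]; nlinarith [sq_nonneg (x + w - y)]
  have h3 : H ≤ 4 * x * y := by rw [hH]; nlinarith [sq_nonneg (x + y - w)]
  have h4 : H * (x * B * C) ≤ 4 * y * w * (x * B * C) := mul_le_mul_of_nonneg_right h1 (by positivity)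
  have h5 : H * (y * A * C) ≤ 4 * x * w * (y * A * C) := mul_le_mul_of_nonneg_right h2 (by positivity)
  have h6 : H * (w * A * B) ≤ 4 * x * y * (w * A * B) := mul_le_mul_of_nonneg_right h3 (by positivity)
  have h7 : H * H ≤ (4 * y * w) * (4 * x * y) := mul_le_mul h1 h3 hHp.le (by positivity)
  have h8 : x * y * w * (4 * x) ≤ x * y * w * A ^ 2 := mul_le_mul_of_nonneg_left hAx (by positivity)
  have h9 : x * y * w * (4 * y) ≤ x * y * w * B ^ 2 := mul_le_mul_of_nonneg_left hBy (by positivity)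
  have h10 : x * y * w * (4 * w) ≤ x * y * w * C ^ 2 := mul_le_mul_of_nonneg_left hCw (by positivity)
  have h11 : 16 * x * y * w = 16 * x * y * w * (A + B + C) ^ 2 := by rw [hs']; ring
  rw [h11]
  have p1 : 0 < x * y * w * (A * B) := by positivity
  have p2 : 0 < x * y * w * (B * C) := by positivity
  have p3 : 0 < x * y * w * (A * C) := by positivity
  have p4 : 0 < x * y * w * x := by positivity
  have p5 : 0 < x * y * w * y := by positivity
  have p6 : 0 < x * y * w * w := by positivity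
  nlinarith

/-- One weight negative. -/
theorem case1 (A B C u v t H : ℝ) (hu : 0 < u) (hv : 0 < v) (ht : 0 < t)
    (hs : A + B + C = 1)
    (hH : H = 2 * u * v + 2 * v * t + 2 * t * u - u ^ 2 - v ^ 2 - t ^ 2) (hHp : 0 < H) :
    -(16 * u * v * t) + 4 * H * (u * B * C + v * A * C + t * A * B) - 3 * H ^ 2 < 0 := by
  have key : 4 * u * v * t * (u * v * t * (A + B + C) ^ 2 - H * (u * B * C + v * A * C + t * A * B)) =
      (2 * u * v * t * A + t * (2 * u * v - H) * B + v * (2 * u * t - H) * C) ^ 2 +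
      H * (t * (u + v - t) * B - v * (u + t - v) * C) ^ 2 := by
    rw [hH]
    ring
  have h1 : 0 ≤ 4 * u * v * t * (u * v * t * (A + B + C) ^ 2 -
      H * (u * B * C + v * A * C + t * A * B)) := by
    rw [key]
    positivity
  have h2 : 0 < 4 * u * v * t := by positivity
  have h3 : 0 ≤ u * v * t * (A + B + C) ^ 2 - H * (u * B * C + v * A * C + t * A * B) :=
    nonneg_of_mul_nonneg_right h1 h2
  rw [hs] at h3
  have h4 : 0 < u * v * t := by positivity
  have h5 : 0 < H ^ 2 := by positivity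
  nlinarith

/-- Two weights negative. -/
theorem case2 (A β γ x y w H : ℝ) (hβ : 0 < β) (hγ : 0 < γ) (hx : 0 < x) (hy : 0 < y) (hw : 0 < w)
    (hβy : 4 * y ≤ β ^ 2) (hγw : 4 * w ≤ γ ^ 2) (hs : A = 1 + β + γ)
    (hH : H = 2 * x * y + 2 * y * w + 2 * w * x - x ^ 2 - y ^ 2 - w ^ 2) (hHp : 0 < H) :
    0 < 16 * x * y * w - 4 * H * (x * β * γ - y * A * γ - w * A * β) - 3 * H ^ 2 := by
  obtain ⟨r, hr⟩ : ∃ r, r = Real.sqrt (y * w) := ⟨_, rfl⟩
  have hr2 : r ^ 2 = y * w := by rw [hr]; exact Real.sq_sqrt (by positivity)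
  have hrp : 0 < r := by rw [hr]; exact Real.sqrt_pos.2 (by positivity)
  obtain ⟨D, hD⟩ : ∃ D, D = y + w - x := ⟨_, rfl⟩
  have hH' : H = (2 * r - D) * (2 * r + D) := by
    rw [hH, hD]
    nlinarith
  have hD2 : -(2 * r) < D ∧ D < 2 * r := by
    rw [hH'] at hHp
    constructor
    · by_contra h
      push Not at h
      have := mul_nonpos_of_nonneg_of_nonpos (show 0 ≤ 2 * r - D by linarith)
        (show 2 * r + D ≤ 0 by linarith)
      linarith
    · by_contra h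
      push Not at h
      have := mul_nonpos_of_nonpos_of_nonneg (show 2 * r - D ≤ 0 by linarith)
        (show 0 ≤ 2 * r + D by linarith)
      linarith
  obtain ⟨n, hn⟩ : ∃ n, n = β * γ := ⟨_, rfl⟩
  have hn4 : 4 * r ≤ n := by
    have h1 : (4 * r) ^ 2 ≤ n ^ 2 := by
      have : (4 * y) * (4 * w) ≤ β ^ 2 * γ ^ 2 := mul_le_mul hβy hγw (by positivity) (by positivity)
      calc (4 * r) ^ 2 = (4 * y) * (4 * w) := by rw [mul_pow, hr2]; ring
        _ ≤ β ^ 2 * γ ^ 2 := this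
        _ = n ^ 2 := by rw [hn]; ring
    exact le_of_sq_le_sq h1 (by rw [hn]; positivity)
  have hq1 : 2 * r * n ≤ y * γ ^ 2 + w * β ^ 2 := by
    have h1 : (2 * r * n) ^ 2 ≤ (y * γ ^ 2 + w * β ^ 2) ^ 2 := by
      calc (2 * r * n) ^ 2 = 4 * (y * w) * (β * γ) ^ 2 := by rw [← hr2, hn]; ring
        _ ≤ (y * γ ^ 2 + w * β ^ 2) ^ 2 := by nlinarith [sq_nonneg (y * γ ^ 2 - w * β ^ 2)]
    exact le_of_sq_le_sq h1 (by positivity)
  have hq : 3 * H < 4 * (y * γ ^ 2 + w * β ^ 2 + D * n) := by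
    have h1 : (2 * r + D) * (4 * r) ≤ (2 * r + D) * n :=
      mul_le_mul_of_nonneg_left hn4 (by linarith [hD2.1])
    have h2 : (2 * r - D) * (2 * r + D) < (4 * r) * (2 * r + D) :=
      mul_lt_mul_of_pos_right (by linarith [hD2.1]) (by linarith [hD2.1])
    rw [hH']
    nlinarith
  have hS : 4 * (y * γ ^ 2 + w * β ^ 2 + D * n) ≤ -4 * (x * β * γ - y * A * γ - w * A * β) := by
    rw [hs, hD, hn]
    have : 0 < y * γ := by positivity
    have : 0 < w * β := by positivity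
    nlinarith
  have h3 : 3 * H < -4 * (x * β * γ - y * A * γ - w * A * β) := lt_of_lt_of_le hq hS
  have h4 : 0 < 16 * x * y * w := by positivity
  have h5 : H * (3 * H) < H * (-4 * (x * β * γ - y * A * γ - w * A * β)) :=
    mul_lt_mul_of_pos_left h3 hHp
  nlinarith

/-- The polynomial. -/
def ff (a a' b b' c c' H : ℝ) : ℝ :=
  16 * (a * a') * (b * b') * (c * c') - 4 * H * ((a * a') * (b + b') * (c + c') +
      (b * b') * (a + a') * (c + c') + (c * c') * (a + a') * (b + b')) - 3 * H ^ 2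

theorem case1' (a a' b b' c c' H : ℝ) (ha : a * a' < 0) (hb : b * b' < 0) (hc : c * c' < 0)
    (hs : a + a' + b + b' + c + c' = 1)
    (hH : H = 2 * (a * a') * (b * b') + 2 * (b * b') * (c * c') + 2 * (c * c') * (a * a') -
      (a * a') ^ 2 - (b * b') ^ 2 - (c * c') ^ 2) (hHp : 0 < H) :
    ff a a' b b' c c' H < 0 := by
  have h := case1 (a + a') (b + b') (c + c') (-(a * a')) (-(b * b')) (-(c * c')) H
    (by linarith) (by linarith) (by linarith) (by linarith) (by rw [hH]; ring) hHp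
  unfold ff
  have e : 16 * (a * a') * (b * b') * (c * c') - 4 * H * ((a * a') * (b + b') * (c + c') +
      (b * b') * (a + a') * (c + c') + (c * c') * (a + a') * (b + b')) - 3 * H ^ 2 =
      -(16 * (-(a * a')) * (-(b * b')) * (-(c * c'))) + 4 * H * ((-(a * a')) * (b + b') * (c + c') +
      (-(b * b')) * (a + a') * (c + c') + (-(c * c')) * (a + a') * (b + b')) - 3 * H ^ 2 := by ring
  rw [e]
  exact h

theorem case2' (a a' b b' c c' H : ℝ) (ha : 0 < a) (ha' : 0 < a') (hb : b < 0) (hb' : b' < 0)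
    (hc : c < 0) (hc' : c' < 0) (hs : a + a' + b + b' + c + c' = 1)
    (hH : H = 2 * (a * a') * (b * b') + 2 * (b * b') * (c * c') + 2 * (c * c') * (a * a') -
      (a * a') ^ 2 - (b * b') ^ 2 - (c * c') ^ 2) (hHp : 0 < H) :
    0 < ff a a' b b' c c' H := by
  have h := case2 (a + a') (-(b + b')) (-(c + c')) (a * a') (b * b') (c * c') H
    (by linarith) (by linarith) (mul_pos ha ha') (mul_pos_of_neg_of_neg hb hb')
    (mul_pos_of_neg_of_neg hc hc') (by nlinarith [sq_nonneg (b - b')])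
    (by nlinarith [sq_nonneg (c - c')]) (by linarith) hH hHp
  unfold ff
  have e : 16 * (a * a') * (b * b') * (c * c') - 4 * H * ((a * a') * (b + b') * (c + c') +
      (b * b') * (a + a') * (c + c') + (c * c') * (a + a') * (b + b')) - 3 * H ^ 2 =
      16 * (a * a') * (b * b') * (c * c') - 4 * H * ((a * a') * (-(b + b')) * (-(c + c')) -
      (b * b') * (a + a') * (-(c + c')) - (c * c') * (a + a') * (-(b + b'))) - 3 * H ^ 2 := by ring
  rw [e]
  exact h

theorem ff_swap1 (a a' b b' c c' H : ℝ) : ff a a' b b' c c' H = ff b b' a a' c c' H := by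
  unfold ff; ring

theorem ff_swap2 (a a' b b' c c' H : ℝ) : ff a a' b b' c c' H = ff c c' b b' a a' H := by
  unfold ff; ring

theorem ff_zero (m1 m2 m3 m4 a a' b b' c c' H ν1 ν2 ν3 ν4 : ℝ)
    (h1 : 2 * m1 = a + b + c) (h2 : 2 * m2 = a + b' + c') (h3 : 2 * m3 = a' + b + c')
    (h4 : 2 * m4 = a' + b' + c) (hs : a + a' + b + b' + c + c' = 1)
    (e1 : (ν1 - 1) * H = 4 * (a' * b' * c')) (e2 : (ν2 - 1) * H = 4 * (a' * b * c))
    (e3 : (ν3 - 1) * H = 4 * (a * b' * c)) (e4 : (ν4 - 1) * H = 4 * (a * b * c'))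
    (e0 : a * ν1 * ν2 + a' * ν3 * ν4 + b * ν1 * ν3 + b' * ν2 * ν4 + c * ν1 * ν4 + c' * ν2 * ν3 =
      4 * (m1 * ν1 + m2 * ν2 + m3 * ν3 + m4 * ν4)) : ff a a' b b' c c' H = 0 := by
  have f1 : H * ν1 = H + 4 * (a' * b' * c') := by linarith
  have f2 : H * ν2 = H + 4 * (a' * b * c) := by linarith
  have f3 : H * ν3 = H + 4 * (a * b' * c) := by linarith
  have f4 : H * ν4 = H + 4 * (a * b * c') := by linarith
  have g0 : a * (H * ν1) * (H * ν2) + a' * (H * ν3) * (H * ν4) + b * (H * ν1) * (H * ν3) +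
      b' * (H * ν2) * (H * ν4) + c * (H * ν1) * (H * ν4) + c' * (H * ν2) * (H * ν3) =
      2 * H * ((2 * m1) * (H * ν1) + (2 * m2) * (H * ν2) + (2 * m3) * (H * ν3) +
      (2 * m4) * (H * ν4)) := by
    linear_combination H ^ 2 * e0
  rw [f1, f2, f3, f4, h1, h2, h3, h4] at g0
  unfold ff
  linear_combination g0 + (3 * H ^ 2 - 16 * (a * a') * (b * b') * (c * c')) * hs

theorem pos_of (k m n : ℝ) (h : 0 < k * (m * n)) (hm : 0 < m) (hn : 0 < n) : 0 < k :=
  pos_of_mul_pos_left h (mul_pos hm hn).le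

theorem pos_of' (k m n : ℝ) (h : 0 < k * (m * n)) (hm : m < 0) (hn : n < 0) : 0 < k :=
  pos_of_mul_pos_left h (mul_pos_of_neg_of_neg hm hn).le

theorem neg_of (k m n : ℝ) (h : 0 < k * (m * n)) (hm : 0 < m) (hn : n < 0) : k < 0 := by
  by_contra hk
  push Not at hk
  have := mul_nonpos_of_nonneg_of_nonpos hk (mul_neg_of_pos_of_neg hm hn).le
  linarith

theorem neg_of' (k m n : ℝ) (h : 0 < k * (m * n)) (hm : m < 0) (hn : 0 < n) : k < 0 := by
  by_contra hk
  push Not at hk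
  have := mul_nonpos_of_nonneg_of_nonpos hk (mul_neg_of_neg_of_pos hm hn).le
  linarith

theorem ff_ne (m1 m2 m3 m4 a a' b b' c c' H : ℝ)
    (n1 : m1 ≠ 0) (n2 : m2 ≠ 0) (n3 : m3 ≠ 0) (n4 : m4 ≠ 0)
    (h1 : 2 * m1 = a + b + c) (h2 : 2 * m2 = a + b' + c') (h3 : 2 * m3 = a' + b + c')
    (h4 : 2 * m4 = a' + b' + c) (hs : a + a' + b + b' + c + c' = 1)
    (ka : 0 < a * (m1 * m2)) (kb : 0 < b * (m1 * m3)) (kc : 0 < c * (m1 * m4))
    (kc' : 0 < c' * (m2 * m3)) (kb' : 0 < b' * (m2 * m4)) (ka' : 0 < a' * (m3 * m4))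
    (hH : H = 2 * (a * a') * (b * b') + 2 * (b * b') * (c * c') + 2 * (c * c') * (a * a') -
      (a * a') ^ 2 - (b * b') ^ 2 - (c * c') ^ 2) (hHp : 0 < H) : ff a a' b b' c c' H ≠ 0 := by
  have hH1 : H = 2 * (b * b') * (a * a') + 2 * (a * a') * (c * c') + 2 * (c * c') * (b * b') -
      (b * b') ^ 2 - (a * a') ^ 2 - (c * c') ^ 2 := by rw [hH]; ring
  have hH2 : H = 2 * (c * c') * (b * b') + 2 * (b * b') * (a * a') + 2 * (a * a') * (c * c') -
      (c * c') ^ 2 - (b * b') ^ 2 - (a * a') ^ 2 := by rw [hH]; ring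
  rcases lt_or_gt_of_ne n1 with s1 | s1 <;> rcases lt_or_gt_of_ne n2 with s2 | s2 <;>
    rcases lt_or_gt_of_ne n3 with s3 | s3 <;> rcases lt_or_gt_of_ne n4 with s4 | s4
  · exfalso; linarith
  · have := neg_of' _ _ _ kc s1 s4
    have := neg_of' _ _ _ kb' s2 s4
    have := neg_of' _ _ _ ka' s3 s4
    exfalso; linarith
  · have := neg_of' _ _ _ kb s1 s3
    have := neg_of' _ _ _ kc' s2 s3
    have := neg_of _ _ _ ka' s3 s4
    exfalso; linarith
  · -- m1, m2 negative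
    exact (case2' a a' b b' c c' H (pos_of' _ _ _ ka s1 s2) (pos_of _ _ _ ka' s3 s4)
      (neg_of' _ _ _ kb s1 s3) (neg_of' _ _ _ kb' s2 s4) (neg_of' _ _ _ kc s1 s4)
      (neg_of' _ _ _ kc' s2 s3) hs hH hHp).ne'
  · have := neg_of' _ _ _ ka s1 s2
    have := neg_of _ _ _ kc' s2 s3
    have := neg_of _ _ _ kb' s2 s4
    exfalso; linarith
  · -- m1, m3 negative
    rw [ff_swap1]
    exact (case2' b b' a a' c c' H (pos_of' _ _ _ kb s1 s3) (pos_of _ _ _ kb' s2 s4)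
      (neg_of' _ _ _ ka s1 s2) (neg_of' _ _ _ ka' s3 s4) (neg_of' _ _ _ kc s1 s4)
      (neg_of _ _ _ kc' s2 s3) (by linarith) hH1 hHp).ne'
  · -- m1, m4 negative
    rw [ff_swap2]
    exact (case2' c c' b b' a a' H (pos_of' _ _ _ kc s1 s4) (pos_of _ _ _ kc' s2 s3)
      (neg_of' _ _ _ kb s1 s3) (neg_of _ _ _ kb' s2 s4) (neg_of' _ _ _ ka s1 s2)
      (neg_of _ _ _ ka' s3 s4) (by linarith) hH2 hHp).ne'
  · -- m1 negative
    exact (case1' a a' b b' c c' H
      (mul_neg_of_neg_of_pos (neg_of' _ _ _ ka s1 s2) (pos_of _ _ _ ka' s3 s4))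
      (mul_neg_of_neg_of_pos (neg_of' _ _ _ kb s1 s3) (pos_of _ _ _ kb' s2 s4))
      (mul_neg_of_neg_of_pos (neg_of' _ _ _ kc s1 s4) (pos_of _ _ _ kc' s2 s3)) hs hH hHp).ne
  · have := neg_of _ _ _ ka s1 s2
    have := neg_of _ _ _ kb s1 s3
    have := neg_of _ _ _ kc s1 s4
    exfalso; linarith
  · -- m2, m3 negative
    rw [ff_swap2]
    exact (case2' c c' b b' a a' H (pos_of _ _ _ kc s1 s4) (pos_of' _ _ _ kc' s2 s3)
      (neg_of _ _ _ kb s1 s3) (neg_of' _ _ _ kb' s2 s4) (neg_of _ _ _ ka s1 s2)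
      (neg_of' _ _ _ ka' s3 s4) (by linarith) hH2 hHp).ne'
  · -- m2, m4 negative
    rw [ff_swap1]
    exact (case2' b b' a a' c c' H (pos_of _ _ _ kb s1 s3) (pos_of' _ _ _ kb' s2 s4)
      (neg_of _ _ _ ka s1 s2) (neg_of _ _ _ ka' s3 s4) (neg_of _ _ _ kc s1 s4)
      (neg_of' _ _ _ kc' s2 s3) (by linarith) hH1 hHp).ne'
  · -- m2 negative
    exact (case1' a a' b b' c c' H
      (mul_neg_of_neg_of_pos (neg_of _ _ _ ka s1 s2) (pos_of _ _ _ ka' s3 s4))
      (mul_neg_of_pos_of_neg (pos_of _ _ _ kb s1 s3) (neg_of' _ _ _ kb' s2 s4))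
      (mul_neg_of_pos_of_neg (pos_of _ _ _ kc s1 s4) (neg_of' _ _ _ kc' s2 s3)) hs hH hHp).ne
  · -- m3, m4 negative
    exact (case2' a a' b b' c c' H (pos_of _ _ _ ka s1 s2) (pos_of' _ _ _ ka' s3 s4)
      (neg_of _ _ _ kb s1 s3) (neg_of _ _ _ kb' s2 s4) (neg_of _ _ _ kc s1 s4)
      (neg_of _ _ _ kc' s2 s3) hs hH hHp).ne'
  · -- m3 negative
    exact (case1' a a' b b' c c' H
      (mul_neg_of_pos_of_neg (pos_of _ _ _ ka s1 s2) (neg_of' _ _ _ ka' s3 s4))
      (mul_neg_of_neg_of_pos (neg_of _ _ _ kb s1 s3) (pos_of _ _ _ kb' s2 s4))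
      (mul_neg_of_pos_of_neg (pos_of _ _ _ kc s1 s4) (neg_of _ _ _ kc' s2 s3)) hs hH hHp).ne
  · -- m4 negative
    exact (case1' a a' b b' c c' H
      (mul_neg_of_pos_of_neg (pos_of _ _ _ ka s1 s2) (neg_of _ _ _ ka' s3 s4))
      (mul_neg_of_pos_of_neg (pos_of _ _ _ kb s1 s3) (neg_of _ _ _ kb' s2 s4))
      (mul_neg_of_neg_of_pos (neg_of _ _ _ kc s1 s4) (pos_of _ _ _ kc' s2 s3)) hs hH hHp).ne
  · exact (case0 a a' b b' c c' H (pos_of _ _ _ ka s1 s2) (pos_of _ _ _ ka' s3 s4)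
      (pos_of _ _ _ kb s1 s3) (pos_of _ _ _ kb' s2 s4) (pos_of _ _ _ kc s1 s4)
      (pos_of _ _ _ kc' s2 s3) hs hH hHp).ne'

end Pool.Agent.V1125.Sph
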