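import Pool.Agent.V1125.Sph.Alg

/-!
# Geometric part for the unit spheres problem
-/

set_option autoImplicit false

namespace Pool.Agent.V1125.Sph

/-- Scalar product in coordinates. -/
def dt (a b : Fin 3 → ℝ) : ℝ := a 0 * b 0 + a 1 * b 1 + a 2 * b 2

/-- Determinant in coordinates. -/
def dd (a b c : Fin 3 → ℝ) : ℝ :=
  a 0 * (b 1 * c 2 - b 2 * c 1) - a 1 * (b 0 * c 2 - b 2 * c 0) + a 2 * (b 0 * c 1 - b 1 * c 0)

theorem gram4 (N u v w : Fin 3 → ℝ) :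
    dt N N * (dt u u * dt v v * dt w w + 2 * dt u v * dt v w * dt u w - dt u u * dt v w ^ 2 -
      dt v v * dt u w ^ 2 - dt w w * dt u v ^ 2) =
    dt N u ^ 2 * (dt v v * dt w w - dt v w ^ 2) + dt N v ^ 2 * (dt u u * dt w w - dt u w ^ 2) +
    dt N w ^ 2 * (dt u u * dt v v - dt u v ^ 2) +
    2 * dt N u * dt N v * (dt v w * dt u w - dt w w * dt u v) +
    2 * dt N u * dt N w * (dt u v * dt v w - dt v v * dt u w) +
    2 * dt N v * dt N w * (dt u v * dt u w - dt u u * dt v w) := by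
  unfold dt
  ring

theorem gram3 (u v w : Fin 3 → ℝ) : dd u v w ^ 2 =
    dt u u * dt v v * dt w w + 2 * dt u v * dt v w * dt u w - dt u u * dt v w ^ 2 -
      dt v v * dt u w ^ 2 - dt w w * dt u v ^ 2 := by
  unfold dt dd
  ring

theorem nuDet (N u v w : Fin 3 → ℝ) (hu : dt u u = 1) (hv : dt v v = 1) (hw : dt w w = 1)
    (h1 : dt N u = 1) (h2 : dt N v = 1) (h3 : dt N w = 1) :
    (dt N N - 1) * dd u v w ^ 2 = 2 * (1 - dt v w) * (1 - dt u w) * (1 - dt u v) := by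
  have h4 := gram4 N u v w
  rw [hu, hv, hw, h1, h2, h3] at h4
  have h5 := gram3 u v w
  rw [hu, hv, hw] at h5
  rw [sub_mul, h5]
  linear_combination h4

theorem dd_ne (N u v w : Fin 3 → ℝ) (hu : dt u u = 1) (hv : dt v v = 1) (hw : dt w w = 1)
    (h1 : dt N u = 1) (h2 : dt N v = 1) (h3 : dt N w = 1) (huv : dt u v < 1) (huw : dt u w < 1)
    (hvw : dt v w < 1) : dd u v w ≠ 0 := by
  intro h
  have h4 := nuDet N u v w hu hv hw h1 h2 h3
  rw [h] at h4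
  have : 0 < 2 * (1 - dt v w) * (1 - dt u w) * (1 - dt u v) :=
    mul_pos (mul_pos (mul_pos two_pos (by linarith)) (by linarith)) (by linarith)
  rw [← h4] at this
  norm_num at this

theorem Hid (m1 m2 m3 a a' b b' c c' g12 g13 g23 : ℝ)
    (h1 : 2 * m1 = a + b + c) (h2 : 2 * m2 = a + b' + c') (h3 : 2 * m3 = a' + b + c')
    (hs : a + a' + b + b' + c + c' = 1)
    (ha : a = 2 * (m1 * m2) * (1 - g12)) (hb : b = 2 * (m1 * m3) * (1 - g13))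
    (hc' : c' = 2 * (m2 * m3) * (1 - g23)) :
    16 * (m1 ^ 2 * m2 ^ 2 * m3 ^ 2 * (1 + 2 * g12 * g23 * g13 - g23 ^ 2 - g13 ^ 2 - g12 ^ 2)) =
    2 * (a * a') * (b * b') + 2 * (b * b') * (c * c') + 2 * (c * c') * (a * a') -
      (a * a') ^ 2 - (b * b') ^ 2 - (c * c') ^ 2 := by
  obtain ⟨X, hX⟩ : ∃ X, X = m1 * m2 * g12 := ⟨_, rfl⟩
  obtain ⟨Y, hY⟩ : ∃ Y, Y = m1 * m3 * g13 := ⟨_, rfl⟩
  obtain ⟨Z, hZ⟩ : ∃ Z, Z = m2 * m3 * g23 := ⟨_, rfl⟩
  have e : 16 * (m1 ^ 2 * m2 ^ 2 * m3 ^ 2 *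
      (1 + 2 * g12 * g23 * g13 - g23 ^ 2 - g13 ^ 2 - g12 ^ 2)) =
      16 * (m1 ^ 2 * m2 ^ 2 * m3 ^ 2 + 2 * X * Y * Z - Z ^ 2 * m1 ^ 2 - Y ^ 2 * m2 ^ 2 -
        X ^ 2 * m3 ^ 2) := by
    rw [hX, hY, hZ]
    ring
  have hX' : X = m1 * m2 - a / 2 := by rw [hX]; linarith
  have hY' : Y = m1 * m3 - b / 2 := by rw [hY]; linarith
  have hZ' : Z = m2 * m3 - c' / 2 := by rw [hZ]; linarith
  have f1 : m1 = (a + b + c) / 2 := by linarith
  have f2 : m2 = (a + b' + c') / 2 := by linarith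
  have f3 : m3 = (a' + b + c') / 2 := by linarith
  have f4 : c = 1 - a - a' - b - b' - c' := by linarith
  rw [e, hX', hY', hZ', f1, f2, f3, f4]
  ring

end Pool.Agent.V1125.Sph
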