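import Pool.Agent.V1125.Sph.Geo

/-!
# Key lemma for the unit spheres problem
-/

set_option autoImplicit false

namespace Pool.Agent.V1125.Sph

/-- Final relation, algebraic. -/
theorem fin_rel (m1 m2 m3 m4 a a' b b' c c' g12 g13 g23 ν1 ν2 ν3 ν4 κ α β γ : ℝ)
    (hm : m1 + m2 + m3 + m4 = 1)
    (h1 : 2 * m1 = a + b + c) (h2 : 2 * m2 = a + b' + c') (h3 : 2 * m3 = a' + b + c')
    (hs : a + a' + b + b' + c + c' = 1)
    (ha : a = 2 * (m1 * m2) * (1 - g12)) (hb : b = 2 * (m1 * m3) * (1 - g13))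
    (hc' : c' = 2 * (m2 * m3) * (1 - g23))
    (e1 : α = m1 * κ * (ν4 - ν1)) (e2 : β = m2 * κ * (ν4 - ν2)) (e3 : γ = m3 * κ * (ν4 - ν3))
    (e4 : 1 - (α + β + γ) + κ * ν4 = 0)
    (e5 : α ^ 2 + β ^ 2 + γ ^ 2 + 2 * α * β * g12 + 2 * α * γ * g13 + 2 * β * γ * g23 =
      1 + 4 * κ) :
    a * ν1 * ν2 + a' * ν3 * ν4 + b * ν1 * ν3 + b' * ν2 * ν4 + c * ν1 * ν4 + c' * ν2 * ν3 =
      4 * (m1 * ν1 + m2 * ν2 + m3 * ν3 + m4 * ν4) := by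
  obtain ⟨P, hP⟩ : ∃ P, P = m1 * ν1 + m2 * ν2 + m3 * ν3 + m4 * ν4 := ⟨_, rfl⟩
  have hκP : κ * P = -1 := by
    rw [e1, e2, e3] at e4
    rw [hP]
    linear_combination e4 + κ * ν4 * hm
  obtain ⟨X, hX⟩ : ∃ X, X = (P - ν4) ^ 2 - (a * (ν1 - ν4) * (ν2 - ν4) + b * (ν1 - ν4) * (ν3 - ν4) +
    c' * (ν2 - ν4) * (ν3 - ν4)) := ⟨_, rfl⟩
  have hX1 : κ ^ 2 * X = 1 + 4 * κ := by
    rw [← e5, hX, e1, e2, e3, ha, hb, hc']
    have hp : P - ν4 = m1 * (ν1 - ν4) + m2 * (ν2 - ν4) + m3 * (ν3 - ν4) := by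
      rw [hP]
      linear_combination ν4 * hm
    rw [hp]
    ring
  have hX2 : X = P ^ 2 - 4 * P := by
    have h : (κ * P) ^ 2 * X = P ^ 2 + 4 * (κ * P) * P := by
      linear_combination P ^ 2 * hX1
    rw [hκP] at h
    linarith
  rw [hX2] at hX
  rw [← hP]
  have hp : P - ν4 = m1 * (ν1 - ν4) + m2 * (ν2 - ν4) + m3 * (ν3 - ν4) := by
    rw [hP]
    linear_combination ν4 * hm
  linear_combination hX - ν4 * (ν1 - ν4) * h1 - ν4 * (ν2 - ν4) * h2 - ν4 * (ν3 - ν4) * h3 +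
    ν4 ^ 2 * hs - 2 * ν4 * hp

theorem key (u1 u2 u3 u4 N1 N2 N3 N4 q : Fin 3 → ℝ) (κ : ℝ)
    (hu1 : dt u1 u1 = 1) (hu2 : dt u2 u2 = 1) (hu3 : dt u3 u3 = 1) (hu4 : dt u4 u4 = 1)
    (d12 : dt u1 u2 < 1) (d13 : dt u1 u3 < 1) (d14 : dt u1 u4 < 1)
    (d23 : dt u2 u3 < 1) (d24 : dt u2 u4 < 1) (d34 : dt u3 u4 < 1)
    (n12 : dt N1 u2 = 1) (n13 : dt N1 u3 = 1) (n14 : dt N1 u4 = 1)
    (n21 : dt N2 u1 = 1) (n23 : dt N2 u3 = 1) (n24 : dt N2 u4 = 1)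
    (n31 : dt N3 u1 = 1) (n32 : dt N3 u2 = 1) (n34 : dt N3 u4 = 1)
    (n41 : dt N4 u1 = 1) (n42 : dt N4 u2 = 1) (n43 : dt N4 u3 = 1)
    (n11 : dt N1 u1 ≠ 1)
    (q1 : 1 - dt N1 q + κ * dt N1 N1 = 0) (q2 : 1 - dt N2 q + κ * dt N2 N2 = 0)
    (q3 : 1 - dt N3 q + κ * dt N3 N3 = 0) (q4 : 1 - dt N4 q + κ * dt N4 N4 = 0)
    (hκ : dt q q = 1 + 4 * κ) : False := by
  -- the coefficients
  obtain ⟨p1, hp1⟩ : ∃ p, p = dd u2 u3 u4 := ⟨_, rfl⟩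
  obtain ⟨p2, hp2⟩ : ∃ p, p = - dd u1 u3 u4 := ⟨_, rfl⟩
  obtain ⟨p3, hp3⟩ : ∃ p, p = dd u1 u2 u4 := ⟨_, rfl⟩
  obtain ⟨p4, hp4⟩ : ∃ p, p = - dd u1 u2 u3 := ⟨_, rfl⟩
  have r0 : p1 * u1 0 + p2 * u2 0 + p3 * u3 0 + p4 * u4 0 = 0 := by
    rw [hp1, hp2, hp3, hp4]; unfold dd; ring
  have r1 : p1 * u1 1 + p2 * u2 1 + p3 * u3 1 + p4 * u4 1 = 0 := by
    rw [hp1, hp2, hp3, hp4]; unfold dd; ring
  have r2 : p1 * u1 2 + p2 * u2 2 + p3 * u3 2 + p4 * u4 2 = 0 := by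
    rw [hp1, hp2, hp3, hp4]; unfold dd; ring
  have rN : ∀ N : Fin 3 → ℝ, p1 * dt N u1 + p2 * dt N u2 + p3 * dt N u3 + p4 * dt N u4 = 0 := by
    intro N
    unfold dt
    linear_combination N 0 * r0 + N 1 * r1 + N 2 * r2
  have z1 : p1 ≠ 0 := by rw [hp1]; exact dd_ne N1 u2 u3 u4 hu2 hu3 hu4 n12 n13 n14 d23 d24 d34
  have z2 : p2 ≠ 0 := by
    rw [hp2]; exact neg_ne_zero.2 (dd_ne N2 u1 u3 u4 hu1 hu3 hu4 n21 n23 n24 d13 d14 d34)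
  have z3 : p3 ≠ 0 := by rw [hp3]; exact dd_ne N3 u1 u2 u4 hu1 hu2 hu4 n31 n32 n34 d12 d14 d24
  have z4 : p4 ≠ 0 := by
    rw [hp4]; exact neg_ne_zero.2 (dd_ne N4 u1 u2 u3 hu1 hu2 hu3 n41 n42 n43 d12 d13 d23)
  obtain ⟨M, hM⟩ : ∃ M, M = p1 + p2 + p3 + p4 := ⟨_, rfl⟩
  have s1 : p1 * (1 - dt N1 u1) = M := by
    have := rN N1; rw [n12, n13, n14] at this; rw [hM]; linarith
  have s2 : p2 * (1 - dt N2 u2) = M := by
    have := rN N2; rw [n21, n23, n24] at this; rw [hM]; linarith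
  have s3 : p3 * (1 - dt N3 u3) = M := by
    have := rN N3; rw [n31, n32, n34] at this; rw [hM]; linarith
  have hM0 : M ≠ 0 := by
    rw [← s1]
    exact mul_ne_zero z1 (sub_ne_zero.2 (Ne.symm n11))
  obtain ⟨m1, hm1⟩ : ∃ m, m = p1 / M := ⟨_, rfl⟩
  obtain ⟨m2, hm2⟩ : ∃ m, m = p2 / M := ⟨_, rfl⟩
  obtain ⟨m3, hm3⟩ : ∃ m, m = p3 / M := ⟨_, rfl⟩
  obtain ⟨m4, hm4⟩ : ∃ m, m = p4 / M := ⟨_, rfl⟩
  have hm : m1 + m2 + m3 + m4 = 1 := by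
    rw [hm1, hm2, hm3, hm4, ← add_div, ← add_div, ← add_div, ← hM]
    exact div_self hM0
  have mN : ∀ N : Fin 3 → ℝ, m1 * dt N u1 + m2 * dt N u2 + m3 * dt N u3 + m4 * dt N u4 = 0 := by
    intro N
    have h := rN N
    rw [hm1, hm2, hm3, hm4]
    field_simp
    linarith
  have y1 : m1 ≠ 0 := by rw [hm1]; exact div_ne_zero z1 hM0
  have y2 : m2 ≠ 0 := by rw [hm2]; exact div_ne_zero z2 hM0
  have y3 : m3 ≠ 0 := by rw [hm3]; exact div_ne_zero z3 hM0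
  have y4 : m4 ≠ 0 := by rw [hm4]; exact div_ne_zero z4 hM0
  have t1 : m1 * (1 - dt N1 u1) = 1 := by
    have := mN N1; rw [n12, n13, n14] at this; linarith
  have t2 : m2 * (1 - dt N2 u2) = 1 := by
    have := mN N2; rw [n21, n23, n24] at this; linarith
  have t3 : m3 * (1 - dt N3 u3) = 1 := by
    have := mN N3; rw [n31, n32, n34] at this; linarith
  have comm : ∀ x y : Fin 3 → ℝ, dt x y = dt y x := by
    intro x y; unfold dt; ring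
  obtain ⟨g12, hg12⟩ : ∃ g, g = dt u1 u2 := ⟨_, rfl⟩
  obtain ⟨g13, hg13⟩ : ∃ g, g = dt u1 u3 := ⟨_, rfl⟩
  obtain ⟨g14, hg14⟩ : ∃ g, g = dt u1 u4 := ⟨_, rfl⟩
  obtain ⟨g23, hg23⟩ : ∃ g, g = dt u2 u3 := ⟨_, rfl⟩
  obtain ⟨g24, hg24⟩ : ∃ g, g = dt u2 u4 := ⟨_, rfl⟩
  obtain ⟨g34, hg34⟩ : ∃ g, g = dt u3 u4 := ⟨_, rfl⟩
  have w1 := mN u1
  have w2 := mN u2
  have w3 := mN u3
  have w4 := mN u4
  rw [hu1, ← hg12, ← hg13, ← hg14] at w1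
  rw [comm u2 u1, hu2, ← hg12, ← hg23, ← hg24] at w2
  rw [comm u3 u1, comm u3 u2, hu3, ← hg13, ← hg23, ← hg34] at w3
  rw [comm u4 u1, comm u4 u2, comm u4 u3, hu4, ← hg14, ← hg24, ← hg34] at w4
  rw [← hg12] at d12
  rw [← hg13] at d13
  rw [← hg14] at d14
  rw [← hg23] at d23
  rw [← hg24] at d24
  rw [← hg34] at d34
  obtain ⟨a, ha⟩ : ∃ k, k = 2 * (m1 * m2) * (1 - g12) := ⟨_, rfl⟩
  obtain ⟨a', ha'⟩ : ∃ k, k = 2 * (m3 * m4) * (1 - g34) := ⟨_, rfl⟩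
  obtain ⟨b, hb⟩ : ∃ k, k = 2 * (m1 * m3) * (1 - g13) := ⟨_, rfl⟩
  obtain ⟨b', hb'⟩ : ∃ k, k = 2 * (m2 * m4) * (1 - g24) := ⟨_, rfl⟩
  obtain ⟨c, hc⟩ : ∃ k, k = 2 * (m1 * m4) * (1 - g14) := ⟨_, rfl⟩
  obtain ⟨c', hc'⟩ : ∃ k, k = 2 * (m2 * m3) * (1 - g23) := ⟨_, rfl⟩
  have h1 : 2 * m1 = a + b + c := by
    rw [ha, hb, hc]; linear_combination 2 * m1 * w1 - 2 * m1 * hm
  have h2 : 2 * m2 = a + b' + c' := by
    rw [ha, hb', hc']; linear_combination 2 * m2 * w2 - 2 * m2 * hm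
  have h3 : 2 * m3 = a' + b + c' := by
    rw [ha', hb, hc']; linear_combination 2 * m3 * w3 - 2 * m3 * hm
  have h4 : 2 * m4 = a' + b' + c := by
    rw [ha', hb', hc]; linear_combination 2 * m4 * w4 - 2 * m4 * hm
  have hs : a + a' + b + b' + c + c' = 1 := by linarith
  obtain ⟨H, hH⟩ : ∃ H, H = 2 * (a * a') * (b * b') + 2 * (b * b') * (c * c') +
    2 * (c * c') * (a * a') - (a * a') ^ 2 - (b * b') ^ 2 - (c * c') ^ 2 := ⟨_, rfl⟩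
  -- the values of the squares of the norms
  obtain ⟨ν1, hν1⟩ : ∃ ν, ν = dt N1 N1 := ⟨_, rfl⟩
  obtain ⟨ν2, hν2⟩ : ∃ ν, ν = dt N2 N2 := ⟨_, rfl⟩
  obtain ⟨ν3, hν3⟩ : ∃ ν, ν = dt N3 N3 := ⟨_, rfl⟩
  obtain ⟨ν4, hν4⟩ : ∃ ν, ν = dt N4 N4 := ⟨_, rfl⟩
  have H4 : 16 * (m1 ^ 2 * m2 ^ 2 * m3 ^ 2 * dd u1 u2 u3 ^ 2) = H := by
    rw [gram3, hu1, hu2, hu3, ← hg12, ← hg13, ← hg23, hH,
      ← Hid m1 m2 m3 a a' b b' c c' g12 g13 g23 h1 h2 h3 hs ha hb hc']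
    ring
  have H3 : 16 * (m1 ^ 2 * m2 ^ 2 * m4 ^ 2 * dd u1 u2 u4 ^ 2) = H := by
    rw [gram3, hu1, hu2, hu4, ← hg12, ← hg14, ← hg24]
    have := Hid m1 m2 m4 a a' c c' b b' g12 g14 g24 (by linarith) (by linarith) (by linarith)
      (by linarith) ha hc hb'
    rw [hH]
    linear_combination this
  have H2 : 16 * (m1 ^ 2 * m3 ^ 2 * m4 ^ 2 * dd u1 u3 u4 ^ 2) = H := by
    rw [gram3, hu1, hu3, hu4, ← hg13, ← hg14, ← hg34]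
    have := Hid m1 m3 m4 b b' c c' a a' g13 g14 g34 (by linarith) (by linarith) (by linarith)
      (by linarith) hb hc ha'
    rw [hH]
    linear_combination this
  have H1 : 16 * (m2 ^ 2 * m3 ^ 2 * m4 ^ 2 * dd u2 u3 u4 ^ 2) = H := by
    rw [gram3, hu2, hu3, hu4, ← hg23, ← hg24, ← hg34]
    have := Hid m2 m3 m4 c' c b' b a a' g23 g24 g34 (by linarith) (by linarith) (by linarith)
      (by linarith) hc' hb' ha'
    rw [hH]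
    linear_combination this
  have hHp : 0 < H := by
    rw [← H4]
    have : dd u1 u2 u3 ≠ 0 := by
      intro h
      apply z4
      rw [hp4, h, neg_zero]
    positivity
  have e1 : (ν1 - 1) * H = 4 * (a' * b' * c') := by
    have := nuDet N1 u2 u3 u4 hu2 hu3 hu4 n12 n13 n14
    rw [← hν1, ← hg23, ← hg24, ← hg34] at this
    rw [← H1, ha', hb', hc']
    linear_combination 16 * (m2 ^ 2 * m3 ^ 2 * m4 ^ 2) * this
  have e2 : (ν2 - 1) * H = 4 * (a' * b * c) := by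
    have := nuDet N2 u1 u3 u4 hu1 hu3 hu4 n21 n23 n24
    rw [← hν2, ← hg13, ← hg14, ← hg34] at this
    rw [← H2, ha', hb, hc]
    linear_combination 16 * (m1 ^ 2 * m3 ^ 2 * m4 ^ 2) * this
  have e3 : (ν3 - 1) * H = 4 * (a * b' * c) := by
    have := nuDet N3 u1 u2 u4 hu1 hu2 hu4 n31 n32 n34
    rw [← hν3, ← hg12, ← hg14, ← hg24] at this
    rw [← H3, ha, hb', hc]
    linear_combination 16 * (m1 ^ 2 * m2 ^ 2 * m4 ^ 2) * this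
  have e4 : (ν4 - 1) * H = 4 * (a * b * c') := by
    have := nuDet N4 u1 u2 u3 hu1 hu2 hu3 n41 n42 n43
    rw [← hν4, ← hg12, ← hg13, ← hg23] at this
    rw [← H4, ha, hb, hc']
    linear_combination 16 * (m1 ^ 2 * m2 ^ 2 * m3 ^ 2) * this
  -- the point `q`
  have hD : dd u1 u2 u3 ≠ 0 := by
    intro h
    apply z4
    rw [hp4, h, neg_zero]
  obtain ⟨D, hDD⟩ : ∃ D, D = dd u1 u2 u3 := ⟨_, rfl⟩
  rw [← hDD] at hD
  obtain ⟨α, hα⟩ : ∃ α, α = dd q u2 u3 / D := ⟨_, rfl⟩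
  obtain ⟨β, hβ⟩ : ∃ β, β = dd u1 q u3 / D := ⟨_, rfl⟩
  obtain ⟨γ, hγ⟩ : ∃ γ, γ = dd u1 u2 q / D := ⟨_, rfl⟩
  have hα' : α * D = dd q u2 u3 := by rw [hα]; field_simp
  have hβ' : β * D = dd u1 q u3 := by rw [hβ]; field_simp
  have hγ' : γ * D = dd u1 u2 q := by rw [hγ]; field_simp
  have hq : ∀ x : Fin 3 → ℝ, dt x q = α * dt x u1 + β * dt x u2 + γ * dt x u3 := by
    intro x
    have h : D * dt x q = dd q u2 u3 * dt x u1 + dd u1 q u3 * dt x u2 + dd u1 u2 q * dt x u3 := by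
      rw [hDD]
      unfold dt dd
      ring
    rw [← hα', ← hβ', ← hγ'] at h
    apply mul_left_cancel₀ hD
    rw [h]
    ring
  have k4 := hq N4
  rw [n41, n42, n43] at k4
  have k1 := hq N1
  rw [n12, n13] at k1
  have k2 := hq N2
  rw [n21, n23] at k2
  have k3 := hq N3
  rw [n31, n32] at k3
  rw [← hν1, k1] at q1
  rw [← hν2, k2] at q2
  rw [← hν3, k3] at q3
  rw [← hν4, k4] at q4
  have l1 : α = m1 * κ * (ν4 - ν1) := by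
    linear_combination m1 * q1 - m1 * q4 - α * t1
  have l2 : β = m2 * κ * (ν4 - ν2) := by
    linear_combination m2 * q2 - m2 * q4 - β * t2
  have l3 : γ = m3 * κ * (ν4 - ν3) := by
    linear_combination m3 * q3 - m3 * q4 - γ * t3
  have l5 : α ^ 2 + β ^ 2 + γ ^ 2 + 2 * α * β * g12 + 2 * α * γ * g13 + 2 * β * γ * g23 =
      1 + 4 * κ := by
    rw [← hκ, hq q, comm q u1, comm q u2, comm q u3, hq u1, hq u2, hq u3, hu1, hu2, hu3,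
      comm u2 u1, comm u3 u1, comm u3 u2, ← hg12, ← hg13, ← hg23]
    ring
  have e0 := fin_rel m1 m2 m3 m4 a a' b b' c c' g12 g13 g23 ν1 ν2 ν3 ν4 κ α β γ hm h1 h2 h3 hs
    ha hb hc' l1 l2 l3 (by linarith) l5
  have f0 := ff_zero m1 m2 m3 m4 a a' b b' c c' H ν1 ν2 ν3 ν4 h1 h2 h3 h4 hs e1 e2 e3 e4 e0
  refine ff_ne m1 m2 m3 m4 a a' b b' c c' H y1 y2 y3 y4 h1 h2 h3 h4 hs ?_ ?_ ?_ ?_ ?_ ?_ hH hHp f0
  · have : 0 < 1 - g12 := by linarith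
    have e : a * (m1 * m2) = 2 * (1 - g12) * (m1 * m2) ^ 2 := by rw [ha]; ring
    rw [e]; positivity
  · have : 0 < 1 - g13 := by linarith
    have e : b * (m1 * m3) = 2 * (1 - g13) * (m1 * m3) ^ 2 := by rw [hb]; ring
    rw [e]; positivity
  · have : 0 < 1 - g14 := by linarith
    have e : c * (m1 * m4) = 2 * (1 - g14) * (m1 * m4) ^ 2 := by rw [hc]; ring
    rw [e]; positivity
  · have : 0 < 1 - g23 := by linarith
    have e : c' * (m2 * m3) = 2 * (1 - g23) * (m2 * m3) ^ 2 := by rw [hc']; ring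
    rw [e]; positivity
  · have : 0 < 1 - g24 := by linarith
    have e : b' * (m2 * m4) = 2 * (1 - g24) * (m2 * m4) ^ 2 := by rw [hb']; ring
    rw [e]; positivity
  · have : 0 < 1 - g34 := by linarith
    have e : a' * (m3 * m4) = 2 * (1 - g34) * (m3 * m4) ^ 2 := by rw [ha']; ring
    rw [e]; positivity

end Pool.Agent.V1125.Sph
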